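import Pool.Agent.Lib.MP_749de9_pr.Families

open Pool.Agent.Lib.MP_749de9_pr MeasureTheory

namespace Pool.Agent.Results.MP_749de9_pr.AllSelfDecomposable

/-- All four families of modified Bessel distributions are self-decomposable for every parameter
in the stated ranges. -/
theorem result :
    -- (A)
    (∀ a b μ ν : ℝ, 0 < a → 0 < b → 0 < ν → 1 / 2 < μ →
      (∃ P : Measure ℝ, IsLaw P (chi a b μ ν)) ∧
      (∀ P : Measure ℝ, IsLaw P (chi a b μ ν) → SelfDecomposable P) ∧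
      (∀ c : ℝ, 0 < c → c < 1 →
        ∃ Q : Measure ℝ, IsLaw Q (fun x => chi a b μ ν x / chi a b μ ν (c * x)))) ∧
    -- (B)
    (∀ a b μ ν : ℝ, 0 < a → 0 < b → 1 / 2 < μ → 1 / 2 < ν →
      (∃ P : Measure ℝ, IsLaw P (zeta a b μ ν)) ∧
      (∀ P : Measure ℝ, IsLaw P (zeta a b μ ν) → SelfDecomposable P) ∧
      (∀ c : ℝ, 0 < c → c < 1 →
        ∃ Q : Measure ℝ, IsLaw Q (fun x => zeta a b μ ν x / zeta a b μ ν (c * x)))) ∧
    -- (C)
    (∀ a b μ ν : ℝ, 0 < a → 0 < b → 1 / 2 < μ → 1 / 2 < ν →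
      (∃ P : Measure ℝ, IsLaw P (eps a b μ ν)) ∧
      (∀ P : Measure ℝ, IsLaw P (eps a b μ ν) → SelfDecomposable P) ∧
      (∀ c : ℝ, 0 < c → c < 1 →
        ∃ Q : Measure ℝ, IsLaw Q (fun x => eps a b μ ν x / eps a b μ ν (c * x)))) ∧
    -- (D)
    (∀ a b μ ν : ℝ, 0 < a → 0 < b → 0 < ν → -1 < μ →
      (∃ P : Measure ℝ, IsLaw P (rho a b μ ν)) ∧
      (∀ P : Measure ℝ, IsLaw P (rho a b μ ν) → SelfDecomposable P) ∧
      (∀ c : ℝ, 0 < c → c < 1 →
        ∃ Q : Measure ℝ, IsLaw Q (fun x => rho a b μ ν x / rho a b μ ν (c * x)))) := by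
  refine ⟨?_, ?_, ?_, ?_⟩
  · intro a b μ ν ha hb hν hμ
    have h := good_chi ha hb hν hμ
    exact law_and_selfDecomposable h.pos h.lim h.ratio
  · intro a b μ ν ha hb hμ hν
    have h := good_zeta ha hb hμ hν
    exact law_and_selfDecomposable h.pos h.lim h.ratio
  · intro a b μ ν ha hb hμ hν
    have h := good_eps ha hb hμ hν
    exact law_and_selfDecomposable h.pos h.lim h.ratio
  · intro a b μ ν ha hb hν hμ
    have h := good_rho ha hb hν hμ
    exact law_and_selfDecomposable h.pos h.lim h.ratio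

end Pool.Agent.Results.MP_749de9_pr.AllSelfDecomposable
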